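import Pool.Agent.H23.QN.Defs

set_option autoImplicit false

namespace H78.QN

open H23.QN Filter Topology Set MeasureTheory AddCircle
open scoped BigOperators ComplexConjugate

noncomputable section

lemma integ (f : C(UnitAddCircle, ℂ)) : Integrable f (haarAddCircle (T := 1)) :=
  f.continuous.integrable_of_hasCompactSupport (HasCompactSupport.of_compactSpace _)

/-- the `k`-th Fourier coefficient as a continuous linear map -/
def fcL (k : ℤ) : C(UnitAddCircle, ℂ) →L[ℂ] ℂ :=
  LinearMap.mkContinuous
    { toFun := fun f => fourierCoeff f k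
      map_add' := fun f g => by
        have := congrFun (fourierCoeff.add (integ f) (integ g)) k
        simpa using this
      map_smul' := fun c f => by
        have := fourierCoeff.const_smul (T := 1) f c k
        simpa using this } 1 (fun f => by
      simp only [LinearMap.coe_mk, AddHom.coe_mk, one_mul]
      unfold fourierCoeff
      refine (norm_integral_le_of_norm_le_const (C := ‖f‖) ?_).trans ?_
      · refine Filter.Eventually.of_forall (fun t => ?_)
        rw [norm_smul]
        have h1 : ‖(fourier (-k) t : ℂ)‖ = 1 := by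
          rw [fourier_apply, Circle.norm_coe]
        rw [h1, one_mul]
        exact f.norm_coe_le_norm t
      · simp)

lemma fcL_apply (k : ℤ) (f : C(UnitAddCircle, ℂ)) : fcL k f = fourierCoeff f k := rfl

lemma coeff_fourier_mul (j k : ℤ) (f : C(UnitAddCircle, ℂ)) :
    fourierCoeff (fourier j * f : C(UnitAddCircle, ℂ)) k = fourierCoeff f (k - j) := by
  unfold fourierCoeff
  congr 1
  ext t
  rw [ContinuousMap.mul_apply, smul_eq_mul, smul_eq_mul, ← mul_assoc, ← fourier_add]
  congr 3
  ring

theorem BR1 : S_BR1 := by
  intro f hf k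
  have h1 := hasSum_fourier_series_of_summable (hf.of_norm)
  have h2 := (h1.mul_right f).mapL (fcL k)
  have h3 := h2.tsum_eq
  rw [fcL_apply] at h3
  rw [← h3]
  refine tsum_congr (fun j => ?_)
  rw [smul_mul_assoc, map_smul, fcL_apply, coeff_fourier_mul, smul_eq_mul]

theorem BR2 : S_BR2 := by
  intro ν _ b hb
  have hs : Summable (fun k : ℤ => (b k) • (fourier k : C(UnitAddCircle, ℂ))) := by
    apply Summable.of_norm
    refine Summable.of_nonneg_of_le (fun k => norm_nonneg _) (fun k => ?_) (WA.summ b)
    rw [norm_smul, fourier_norm, mul_one]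
    exact le_mul_of_one_le_right (norm_nonneg _) (one_le_wt ν k)
  set f : C(UnitAddCircle, ℂ) := ∑' k : ℤ, (b k) • (fourier k : C(UnitAddCircle, ℂ)) with hf
  have h1 : HasSum (fun k : ℤ => (b k) • (fourier k : C(UnitAddCircle, ℂ))) f := hs.hasSum
  refine ⟨f, ?_, ?_⟩
  · intro k
    have h2 := (h1.mapL (fcL k)).tsum_eq
    rw [fcL_apply] at h2
    rw [← h2]
    rw [tsum_eq_single k]
    · rw [map_smul, fcL_apply, fourierCoeff_fourier]
      simp
    · intro j hj
      rw [map_smul, fcL_apply, fourierCoeff_fourier]
      simp [hj]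
  · intro x
    have h3 : HasSum (fun k : ℤ => b k * (fourier k x : ℂ)) (f x) := by
      have := h1.mapL (ContinuousMap.evalCLM ℂ x)
      simpa using this
    have h4 : HasSum (fun k : ℤ => conj (b k * (fourier k x : ℂ))) (conj (f x)) := by
      have := h3.mapL (Complex.conjCLE : ℂ →L[ℝ] ℂ)
      simpa using this
    have h5 : HasSum (fun k : ℤ => b k * (fourier k x : ℂ)) (conj (f x)) := by
      have h6 := (Equiv.neg ℤ).hasSum_iff.2 h4
      refine h6.congr_fun ?_
      intro k
      simp only [Function.comp, Equiv.neg_apply, map_mul]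
      rw [fourier_neg, Complex.conj_conj, (hb k).2]
      congr 1
      exact (Complex.conj_eq_iff_im.2 (hb k).1).symm
    have h7 := h3.unique h5
    exact Complex.conj_eq_iff_im.1 h7.symm

end

end H78.QN
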