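import Pool.Agent.H23.QN.Defs

set_option autoImplicit false

namespace H78.QN

open H23.QN Filter Topology Set MeasureTheory AddCircle
open scoped BigOperators ComplexConjugate

noncomputable section

lemma coeff_star (f : C(UnitAddCircle, ℂ)) (k : ℤ) :
    fourierCoeff (star f : C(UnitAddCircle, ℂ)) k = conj (fourierCoeff f (-k)) := by
  unfold fourierCoeff
  rw [← integral_conj]
  congr 1
  ext t
  rw [smul_eq_mul, smul_eq_mul, map_mul, neg_neg, fourier_neg]
  rfl

lemma nrmA_star (ν : ℝ) (f : C(UnitAddCircle, ℂ)) : nrmA ν (star f) = nrmA ν f := by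
  unfold nrmA
  rw [← (Equiv.neg ℤ).tsum_eq (fun k : ℤ => ‖fourierCoeff f k‖ * ν ^ k.natAbs)]
  refine tsum_congr (fun k => ?_)
  rw [coeff_star, Equiv.neg_apply, Int.natAbs_neg, RCLike.norm_conj]

lemma InA_star (ν : ℝ) (f : C(UnitAddCircle, ℂ)) (h : InA ν f) : InA ν (star f) := by
  unfold InA at *
  have := (Equiv.neg ℤ).summable_iff.2 h
  refine this.congr (fun k => ?_)
  rw [coeff_star, Function.comp, Equiv.neg_apply, Int.natAbs_neg, RCLike.norm_conj]

theorem TR : S_TR := by
  intro ν hν u hu
  refine ⟨⟨?_, ?_, ?_⟩, ?_⟩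
  · intro t ht
    exact InA_star ν _ (hu.mem (-t) (by simpa using ht))
  · intro t ht
    have h1 := hu.cont (-t) (by simpa using ht)
    have h2 : Tendsto (fun s : ℝ => -s) (𝓝[Ici 0] t) (𝓝[Iic 0] (-t)) := by
      refine tendsto_nhdsWithin_iff.2 ⟨?_, ?_⟩
      · exact (continuous_neg.tendsto t).mono_left nhdsWithin_le_nhds
      · filter_upwards [self_mem_nhdsWithin] with s hs
        simpa using hs
    refine (h1.comp h2).congr (fun s => ?_)
    have e : star (u (-s)) - star (u (-t)) = star (u (-s) - u (-t)) := by
      ext x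
      simp
    simp only [Function.comp]
    rw [e, nrmA_star]
  · intro t ht k
    have h1 := hu.eqn (-t) (by simpa using ht) (-k)
    have h2 : HasDerivWithinAt (fun s : ℝ => -s) (-1) (Ici 0) t := (hasDerivAt_neg t).hasDerivWithinAt
    have h3 := HasDerivWithinAt.scomp t h1 h2 (fun s hs => by simpa using hs)
    have h4 := h3.star
    refine (h4.congr_deriv ?_).congr (fun s _ => ?_) ?_
    · have e : star (u (-t)) * star (u (-t)) = star (u (-t) * u (-t)) := by
        ext x
        simp
      rw [coeff_star, e, coeff_star]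
      simp only [Complex.star_def, map_mul, map_neg, map_add, Complex.conj_I, map_pow,
        Complex.real_smul]
      simp
      left; left
      exact Complex.conj_ofNat 4
    · simp only [Function.comp]
      rw [coeff_star]; rfl
    · simp only [Function.comp]
      rw [coeff_star]; rfl
  · intro h
    refine (h.comp tendsto_neg_atTop_atBot).congr (fun s => ?_)
    simp only [Function.comp]
    rw [nrmA_star]

end

end H78.QN
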